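import Pool.Agent.Work.MP_0c3a8f_co.Ext.Defs

/-!
# MP_0c3a8f_co, extension to all Turán graphs: statements
-/

open Finset

namespace MP0c3a8f

/-- (KAP) the largest root of `∑ σ t / (μ + σ t) = 1` -/
def KAP_statement : Prop :=
  ∀ (r : ℕ) (D ε : ℝ), 3 ≤ r → 0 < ε → ∃ n₀ : ℕ, ∀ σ : Fin r → ℕ, n₀ ≤ ∑ t, σ t → dev σ ≤ D →
    ∃ μ₁ μ₂ : ℝ, 0 < μ₁ ∧ 0 < μ₂ ∧
      1 ≤ ∑ t, (σ t : ℝ) / (μ₁ + σ t) ∧ ∑ t, (σ t : ℝ) / (μ₂ + σ t) ≤ 1 ∧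
      |μ₁ ^ 2 - ((1 - 1 / (r : ℝ)) ^ 2 * (∑ t, (σ t : ℝ)) ^ 2
        - 2 * (1 - 1 / (r : ℝ)) ^ 2 * dev σ)| ≤ ε ∧
      |μ₂ ^ 2 - ((1 - 1 / (r : ℝ)) ^ 2 * (∑ t, (σ t : ℝ)) ^ 2
        - 2 * (1 - 1 / (r : ℝ)) ^ 2 * dev σ)| ≤ ε

/-- (LOWS) lower bound for the spectral radius of a modification -/
def LOWS_statement : Prop :=
  ∀ (r N : ℕ) (D ε : ℝ), 3 ≤ r → 0 < ε → ∃ n₀ : ℕ, ∀ (σ : Fin r → ℕ) (a b : ℕ) (V : Type)
    [Fintype V] (G : SimpleGraph V) (f : V → Option (Fin r)), IsModS σ a b G f →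
    n₀ ≤ ∑ t, σ t → dev σ ≤ D → a ≤ N →
    2 * (1 - 1 / (r : ℝ)) * G.edgeSet.ncard - lam G ^ 2 ≤ (1 - 1 / (r : ℝ)) * Phi σ a b + ε

/-- (PRE) upper bound for the spectral radius of a modification with a flat Perron vector -/
def PRE_statement : Prop :=
  ∀ (r N : ℕ) (ε : ℝ), 3 ≤ r → 0 < ε → ∃ δ > (0 : ℝ), ∃ m₀ : ℕ,
    ∀ (V : Type) [Fintype V] (G : SimpleGraph V) (x : V → ℝ) (l : ℝ) (m : ℕ)
      (g : V → Option (Fin r)) (σ : Fin r → ℕ) (a b : ℕ), Data G x l m → m₀ ≤ m →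
      2 * (1 - 1 / (r : ℝ)) * m - N ≤ l ^ 2 → IsModS σ a b G g → (∀ t, 1 ≤ σ t) →
      a + b ≤ N → dev σ ≤ N → (∀ i, g i = none → x i ≤ δ * Real.sqrt (l / (2 * m))) →
      (∀ i, g i ≠ none → |x i - Real.sqrt (l / (2 * m))| ≤ δ * Real.sqrt (l / (2 * m))) →
      (1 - 1 / (r : ℝ)) * Phi σ a b ≤ 2 * (1 - 1 / (r : ℝ)) * m - l ^ 2 + ε

/-- (STR2) the structure theorem with the Perron vector -/
def STR2_statement : Prop :=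
  ∀ (W : Type) [Fintype W] (F : SimpleGraph W) (r : ℕ), 3 ≤ r → Crit r F →
    F.Colorable (r + 1) → ∀ C : ℝ, ∃ N : ℕ, ∀ (δ : ℝ) (s₁ : ℕ), 0 < δ → ∃ m₀ : ℕ,
    ∀ (V : Type) [Fintype V] (G : SimpleGraph V), F.Free G → m₀ ≤ G.edgeSet.ncard →
      2 * (1 - 1 / (r : ℝ)) * G.edgeSet.ncard - C ≤ lam G ^ 2 →
      ∃ (x : V → ℝ) (g : V → Option (Fin r)) (σ : Fin r → ℕ) (a b : ℕ),
        Data G x (lam G) G.edgeSet.ncard ∧ IsModS σ a b G g ∧ (∀ t, s₁ ≤ σ t) ∧ a + b ≤ N ∧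
        dev σ ≤ N ∧
        (∀ i, g i = none → x i ≤ δ * Real.sqrt (lam G / (2 * G.edgeSet.ncard))) ∧
        (∀ i, g i ≠ none → |x i - Real.sqrt (lam G / (2 * G.edgeSet.ncard))|
          ≤ δ * Real.sqrt (lam G / (2 * G.edgeSet.ncard)))

/-- (CNTS) number of edges -/
def CNTS_statement : Prop :=
  ∀ (r : ℕ) (σ : Fin r → ℕ) (a b : ℕ) (V : Type) [Fintype V] (G : SimpleGraph V)
    (f : V → Option (Fin r)), IsModS σ a b G f → Sz σ a b G.edgeSet.ncard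

/-- (REDS) reduction of the sizes of the parts -/
def REDS_statement : Prop :=
  ∀ (W : Type) [Fintype W] (F : SimpleGraph W) (r : ℕ) (τ : Fin r → ℕ) (V : Type) [Fintype V]
    (G : SimpleGraph V) (g : V → Option (Fin r)), 3 ≤ r → Indep G g →
    (∀ t, 2 * ((missSet G g).ncard + (outSet G g).ncard) + 1 ≤ τ t) →
    (∀ t, τ t ≤ {i | g i = some t}.ncard) → F.Free G → ¬ G.Colorable r →
    (∀ v, ∃ w, G.Adj v w) →
    ∃ (k : ℕ) (H : SimpleGraph (Fin k)) (f : Fin k → Option (Fin r)),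
      IsModS τ (missSet G g).ncard (outSet G g).ncard H f ∧ F.Free H ∧ ¬ H.Colorable r ∧
      ∀ v, ∃ w, H.Adj v w

/-- (REM) removal of an edge of the core -/
def REM_statement : Prop :=
  ∀ (W : Type) [Fintype W] (F : SimpleGraph W) (r a b : ℕ), 3 ≤ r → Real r F a b →
    Real r F (a + 1) b

/-- (NON2) types with many new edges -/
def NON2_statement : Prop :=
  ∀ (W : Type) [Fintype W] (F : SimpleGraph W) (r : ℕ), 3 ≤ r → ¬ F.Colorable r →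
    ∀ B : ℕ, ∃ b ≥ B, Real r F 0 b

/-- (STRF) the structure of the graphs in `N_r(m, F)` with large spectral radius -/
def STRF_statement : Prop :=
  ∀ (W : Type) [Fintype W] (F : SimpleGraph W) (r : ℕ), 3 ≤ r → Crit r F →
    F.Colorable (r + 1) → ∀ (C ε : ℝ) (s₁ : ℕ), 0 < ε → ∃ m₀ : ℕ, ∀ m ≥ m₀,
    ∀ (V : Type) [Fintype V] (G : SimpleGraph V), InN r m F G →
      2 * (1 - 1 / (r : ℝ)) * m - C ≤ lam G ^ 2 →
      ∃ (σ : Fin r → ℕ) (a b : ℕ) (f : V → Option (Fin r)), IsModS σ a b G f ∧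
        (∀ t, s₁ ≤ σ t) ∧ Real r F a b ∧
        |2 * (1 - 1 / (r : ℝ)) * m - lam G ^ 2 - (1 - 1 / (r : ℝ)) * Phi σ a b| ≤ ε

/-- (WIN) the maximisers for `2m = (1 - 1/r) n² + O(1)` -/
def WIN_statement : Prop :=
  ∀ (W : Type) [Fintype W] (F : SimpleGraph W) (r : ℕ), 3 ≤ r → Crit r F →
    F.Colorable (r + 1) → ¬ F.Colorable r → ∀ J ε : ℝ, 0 < ε → ∃ n₀ : ℕ, ∀ n ≥ n₀, ∀ m : ℕ,
    |2 * (m : ℝ) - (1 - 1 / (r : ℝ)) * (n : ℝ) ^ 2| ≤ J →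
    (∃ (k : ℕ) (G : SimpleGraph (Fin k)), IsMaximiser r m F G) ∧
    ∀ (V : Type) [Fintype V] (G : SimpleGraph V), IsMaximiser r m F G →
      ∃ (σ : Fin r → ℕ) (a b : ℕ) (f : V → Option (Fin r)), IsModS σ a b G f ∧
        ∑ t, σ t = n ∧ Real r F a b ∧
        (∀ (σ' : Fin r → ℕ) (a' b' : ℕ), ∑ t, σ' t = n → Real r F a' b' → Sz σ' a' b' m →
          Phi σ a b ≤ Phi σ' a' b') ∧
        |2 * (1 - 1 / (r : ℝ)) * m - lam G ^ 2 - (1 - 1 / (r : ℝ)) * Phi σ a b| ≤ ε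

/-- (DEV) the sizes of the parts of the Turán graph minimise the sum of the squares -/
def DEV_statement : Prop :=
  ∀ (r n : ℕ) (σ : Fin r → ℕ), 1 ≤ r → ∑ t, σ t = n →
    ∑ t, tz r n t = n ∧ ∑ t, (tz r n t) ^ 2 ≤ ∑ t, σ t ^ 2 ∧ dev (tz r n) ≤ r ∧
    dev σ = ∑ t, (σ t : ℝ) ^ 2 - (n : ℝ) ^ 2 / r ∧
    (∑ t, σ t ^ 2 = ∑ t, (tz r n t) ^ 2 →
      ∃ π : Equiv.Perm (Fin r), ∀ t, σ t = tz r n (π t)) ∧
    Sz (tz r n) 0 0 (SimpleGraph.turanGraph n r).edgeSet.ncard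

/-- (CLSS) the new vertex of a graph of type `(a, r)` -/
def CLSS_statement : Prop :=
  ∀ (r : ℕ) (σ : Fin r → ℕ) (a : ℕ) (V : Type) [Fintype V] (G : SimpleGraph V)
    (f : V → Option (Fin r)), 3 ≤ r → IsModS σ a r G f → ¬ G.Colorable r →
    (∀ v, ∃ w, G.Adj v w) →
    ∃ (u : V) (q : Fin r → V), (∀ v, f v = none ↔ v = u) ∧ (∀ t, f (q t) = some t) ∧
      ∀ w, G.Adj u w ↔ ∃ t, w = q t

/-- (TUCn) -/
def TUCn_statement : Prop :=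
  ∀ (r n : ℕ) (σ : Fin r → ℕ) (π : Equiv.Perm (Fin r)) (V : Type) [Fintype V]
    (G : SimpleGraph V) (f : V → Option (Fin r)), 3 ≤ r → r ≤ n → (∀ t, σ t = tz r n (π t)) →
    IsModS σ 0 r G f → ¬ G.Colorable r → (∀ v, ∃ w, G.Adj v w) → Nonempty (G ≃g TUn r n)

/-- (TUMCn) -/
def TUMCn_statement : Prop :=
  ∀ (r n : ℕ) (σ : Fin r → ℕ) (π : Equiv.Perm (Fin r)) (V : Type) [Fintype V]
    (G : SimpleGraph V) (f : V → Option (Fin r)), 3 ≤ r → r ≤ n → (∀ t, σ t = tz r n (π t)) →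
    IsModS σ 1 r G f → ¬ G.Colorable r → (∀ v, ∃ w, G.Adj v w) →
    (⊤ : SimpleGraph (Fin (r + 1))).Free G →
    ∃ i j : ℕ, i < j ∧ j < r ∧ Nonempty (G ≃g TUMn r n i j)

/-- (TUPn) -/
def TUPn_statement : Prop :=
  ∀ r n : ℕ, 3 ≤ r → r ≤ n → (∃ f, IsModS (tz r n) 0 r (TUn r n) f) ∧
    ¬ (TUn r n).Colorable r ∧ (∀ v, ∃ w, (TUn r n).Adj v w) ∧
    ¬ (⊤ : SimpleGraph (Fin (r + 1))).Free (TUn r n)

/-- (TUMPn) -/
def TUMPn_statement : Prop :=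
  ∀ r n i j : ℕ, 3 ≤ r → 2 * r ≤ n → i < j → j < r →
    (∃ f, IsModS (tz r n) 1 r (TUMn r n i j) f) ∧
    ¬ (TUMn r n i j).Colorable r ∧ (∀ v, ∃ w, (TUMn r n i j).Adj v w) ∧
    (⊤ : SimpleGraph (Fin (r + 1))).Free (TUMn r n i j)

/-- (SYM) `TUMn r n i j` depends only on the sizes of the two parts -/
def SYM_statement : Prop :=
  ∀ r n i j i' j' : ℕ, i < r → j < r → i' < r → j' < r → i ≠ j → i' ≠ j' → r ≤ n →
    (i < n % r ↔ i' < n % r) → (j < n % r ↔ j' < n % r) →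
    Nonempty (TUMn r n i j ≃g TUMn r n i' j')

/-- (CMP) it is better to delete the edge in large parts -/
def CMP_statement : Prop :=
  ∀ r : ℕ, 3 ≤ r → ∃ n₀ : ℕ, ∀ n ≥ n₀, ∀ i j k : ℕ, i < r → j < r → k < r → i ≠ j → k ≠ j →
    k < n % r → n % r ≤ i → lam (TUMn r n i j) < lam (TUMn r n k j)

/-- the final theorem for `F` not contained in the graphs `TUn r n` -/
def GEN_statement : Prop :=
  ∀ (W : Type) [Fintype W] (F : SimpleGraph W) (r : ℕ), 3 ≤ r → F.chromaticNumber = r + 1 →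
    ColorCritical F → (∀ n, F.Free (TUn r n)) → ∃ n₀ : ℕ, ∀ n ≥ n₀,
    Unique r ((SimpleGraph.turanGraph n r).edgeSet.ncard + r) F (TUn r n)

/-- the final theorem for complete graphs -/
def CLI_statement : Prop :=
  ∀ r : ℕ, 3 ≤ r → ∃ n₀ : ℕ, ∀ n ≥ n₀,
    Unique r ((SimpleGraph.turanGraph n r).edgeSet.ncard + r - 1)
      (⊤ : SimpleGraph (Fin (r + 1))) (TUMn r n 0 1)

end MP0c3a8f
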