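import Pool.Agent.Work.MP_0c3a8f_co.Ext.Stmts

/-!
# CMP: comparison of the graphs `TUMn r n i j` and `TUMn r n k j` (helper69)
-/

open Finset

namespace MP0c3a8f

/-! ### real arithmetic -/

theorem CMP_real {l T Xi Xj Xk xi xj xk xu ni nj nk : ℝ}
    (ha : l * xk = T - Xk + xu) (hb : l * xi = T - Xi + xu - xj)
    (hc : l * xj = T - Xj + xu - xi) (hd : (l + nk) * Xk = nk * T + xu)
    (he : (l + ni) * Xi = ni * T + xu - xj) (hf : (l + nj) * Xj = nj * T + xu - xi)
    (hnk : nk = ni + 1) (hnj : nj = ni ∨ nj = ni + 1) (hni : 10 ≤ ni) (hl : nk ≤ l)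
    (hT : 0 < T) (hxu : 0 ≤ xu) (hxuT : xu ≤ T) (hXk : Xk ≤ T)
    (hXi : 0 ≤ Xi) (hXj : 0 ≤ Xj) (hxi : 0 ≤ xi) (hxj : 0 ≤ xj) :
    0 < xk - xi ∧ (l + 1) * (xk - xi) < xj := by
  have hl0 : 0 < l := by linarith
  have hg : (l + ni) * (Xk - Xi) = T - Xk + xj := by
    rw [hnk] at hd
    linarith
  have hD : l * (xk - xi) = xj - (Xk - Xi) := by linarith
  have hXjk : Xj ≤ Xk := by
    rcases hnj with h | h
    · rw [h] at hf
      rw [hnk] at hd
      have : (l + ni) * Xj ≤ (l + ni) * Xk := by linarith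
      exact le_of_mul_le_mul_left this (by linarith)
    · rw [h] at hf
      rw [hnk] at hd
      have : (l + (ni + 1)) * Xj ≤ (l + (ni + 1)) * Xk := by linarith
      exact le_of_mul_le_mul_left this (by linarith)
  have hi : (l + nk) * (T - Xk) = l * T - xu := by linarith
  have hTX : (l - 1) * T ≤ 2 * l * (T - Xk) := by
    have h0 : 0 ≤ T - Xk := by linarith
    nlinarith
  -- upper bound for `xi`
  have hxi2 : l * xi ≤ 2 * T := by linarith
  have hxj2 : l * xj ≤ 2 * T := by linarith
  -- first inequality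
  have h1 : Xk - Xi < xj := by
    have h10 : (l + ni) * (Xk - Xi) < (l + ni) * xj := by
      rw [hg]
      have h11 : xi < xu + (ni - 1) * xj := by
        -- `(ni - 1) * l * xj = (ni - 1) * (T - Xj + xu - xi)`
        have h12 : (ni - 1) * (l * xj) = (ni - 1) * (T - Xj + xu - xi) := by rw [hc]
        have h13 : (l - 1) * T ≤ 2 * l * (T - Xj) := by nlinarith
        have h14 : l * xi < l * ((ni - 1) * xj) := by
          have h15 : l * (l * xi) < l * ((ni - 1) * (l * xj)) := by
            rw [h12]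
            have h16 : l * (l * xi) ≤ l * (2 * T) := mul_le_mul_of_nonneg_left hxi2 hl0.le
            have h17 : (ni - 1) * ((l - 1) * T) ≤ (ni - 1) * (2 * l * (T - Xj)) :=
              mul_le_mul_of_nonneg_left h13 (by linarith)
            have h18 : (ni - 1) * (l * xi) ≤ (ni - 1) * (2 * T) :=
              mul_le_mul_of_nonneg_left hxi2 (by linarith)
            have h19 : 0 ≤ l * ((ni - 1) * xu) := by
              have : 0 ≤ ni - 1 := by linarith
              positivity
            have h20 : 2 * (2 * l * T + (ni - 1) * (2 * T)) < (ni - 1) * ((l - 1) * T) := by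
              have h21 : 0 < ((ni - 1) * (l - 1) - 4 * l - 4 * (ni - 1)) := by nlinarith
              nlinarith [mul_pos h21 hT]
            nlinarith
          have h22 : l * ((ni - 1) * (l * xj)) = l * (l * ((ni - 1) * xj)) := by ring
          rw [h22] at h15
          exact lt_of_mul_lt_mul_left h15 hl0.le
        have h23 := lt_of_mul_lt_mul_left h14 hl0.le
        linarith
      nlinarith
    exact lt_of_mul_lt_mul_left h10 (by linarith)
  -- second inequality
  have h2 : xj < (l + 1) * (Xk - Xi) := by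
    have h30 : (l + ni) * xj < (l + ni) * ((l + 1) * (Xk - Xi)) := by
      have h31 : (l + ni) * ((l + 1) * (Xk - Xi)) = (l + 1) * (T - Xk + xj) := by
        rw [← hg]
        ring
      rw [h31]
      have h32 : (ni - 1) * xj < (l + 1) * (T - Xk) := by
        have h33 : (ni - 1) * (l * xj) ≤ (ni - 1) * (2 * T) :=
          mul_le_mul_of_nonneg_left hxj2 (by linarith)
        have h34 : l * ((ni - 1) * xj) < l * ((l + 1) * (T - Xk)) := by
          have h35 : (l + 1) * ((l - 1) * T) ≤ (l + 1) * (2 * l * (T - Xk)) :=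
            mul_le_mul_of_nonneg_left hTX (by linarith)
          have h36 : 2 * ((ni - 1) * (2 * T)) < (l + 1) * ((l - 1) * T) := by
            have h37 : 0 < (l + 1) * (l - 1) - 4 * (ni - 1) := by nlinarith
            nlinarith [mul_pos h37 hT]
          nlinarith
        exact lt_of_mul_lt_mul_left h34 hl0.le
      nlinarith
    exact lt_of_mul_lt_mul_left h30 (by linarith)
  constructor
  · have : 0 < l * (xk - xi) := by linarith
    exact (mul_pos_iff_of_pos_left hl0).1 this
  · have h40 : l * ((l + 1) * (xk - xi)) < l * xj := by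
      have : l * ((l + 1) * (xk - xi)) = (l + 1) * (l * (xk - xi)) := by ring
      rw [this, hD]
      nlinarith
    exact lt_of_mul_lt_mul_left h40 hl0.le

/-! ### quadratic forms -/

theorem CMP_adj_comm {V : Type} (H : SimpleGraph V) (v w : V) : adj H v w = adj H w v := by
  unfold adj
  by_cases h : H.Adj v w
  · rw [if_pos h, if_pos h.symm]
  · rw [if_neg h, if_neg fun h' => h h'.symm]

open Classical in
theorem CMP_shift {V : Type} [Fintype V] (H : SimpleGraph V) (a b : V) (hab : H.Adj a b)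
    (x : V → ℝ) (D : ℝ) :
    qf H (fun v => x v + ((if v = a then D else 0) - if v = b then D else 0)) =
      qf H x + 2 * D * (nb H x a - nb H x b) - 2 * D ^ 2 := by
  have hs : ∀ f : V → ℝ, ∑ w, f w * ((if w = a then D else 0) - if w = b then D else 0) =
      f a * D - f b * D := by
    intro f
    simp only [mul_sub, Finset.sum_sub_distrib, mul_ite, mul_zero, Finset.sum_ite_eq',
      Finset.mem_univ, if_true]
  have hrow : ∀ v, ∑ w, adj H v w * ((if w = a then D else 0) - if w = b then D else 0) =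
      adj H v a * D - adj H v b * D := fun v => hs _
  have e1 : qf H (fun v => x v + ((if v = a then D else 0) - if v = b then D else 0)) =
      qf H x + ∑ v, ((if v = a then D else 0) - if v = b then D else 0) * nb H x v +
      ∑ v, x v * (adj H v a * D - adj H v b * D) +
      ∑ v, ((if v = a then D else 0) - if v = b then D else 0) *
        (adj H v a * D - adj H v b * D) := by
    unfold qf nb
    simp only [← hrow, Finset.mul_sum, ← Finset.sum_add_distrib]
    refine Finset.sum_congr rfl fun v _ => Finset.sum_congr rfl fun w _ => ?_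
    ring
  have e2 : ∑ v, ((if v = a then D else 0) - if v = b then D else 0) * nb H x v =
      nb H x a * D - nb H x b * D := by
    rw [← hs]
    refine Finset.sum_congr rfl fun v _ => mul_comm _ _
  have e3 : ∑ v, x v * (adj H v a * D - adj H v b * D) = nb H x a * D - nb H x b * D := by
    unfold nb
    rw [Finset.sum_mul, Finset.sum_mul, ← Finset.sum_sub_distrib]
    refine Finset.sum_congr rfl fun v _ => ?_
    rw [CMP_adj_comm H v a, CMP_adj_comm H v b]
    ring
  have e4 : ∑ v, ((if v = a then D else 0) - if v = b then D else 0) *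
        (adj H v a * D - adj H v b * D) = -2 * D ^ 2 := by
    have : ∑ v, ((if v = a then D else 0) - if v = b then D else 0) *
        (adj H v a * D - adj H v b * D) = ∑ v, (adj H v a * D - adj H v b * D) *
        ((if v = a then D else 0) - if v = b then D else 0) :=
      Finset.sum_congr rfl fun v _ => mul_comm _ _
    rw [this, hs]
    have h1 : adj H a a = 0 := by simp [adj]
    have h2 : adj H b b = 0 := by simp [adj]
    have h3 : adj H a b = 1 := by simp [adj, hab]
    have h4 : adj H b a = 1 := by simp [adj, hab.symm]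
    rw [h1, h2, h3, h4]
    ring
  rw [e1, e2, e3, e4]
  ring

open Classical in
theorem CMP_sq {V : Type} [Fintype V] (a b : V) (hab : a ≠ b) (x : V → ℝ) (D : ℝ) :
    ∑ v, (x v + ((if v = a then D else 0) - if v = b then D else 0)) ^ 2 =
      ∑ v, x v ^ 2 + 2 * D * (x a - x b) + 2 * D ^ 2 := by
  have h : ∀ v, (x v + ((if v = a then D else 0) - if v = b then D else 0)) ^ 2 =
      x v ^ 2 + (if v = a then 2 * D * x v + D ^ 2 else 0) +
        (if v = b then -(2 * D * x v) + D ^ 2 else 0) := by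
    intro v
    by_cases ha : v = a
    · have hb : v ≠ b := fun hb => hab (ha.symm.trans hb)
      rw [if_pos ha, if_neg hb, if_pos ha, if_neg hb]
      ring
    · by_cases hb : v = b
      · rw [if_neg ha, if_pos hb, if_neg ha, if_pos hb]
        ring
      · rw [if_neg ha, if_neg hb, if_neg ha, if_neg hb]
        ring
  rw [Finset.sum_congr rfl fun v _ => h v, Finset.sum_add_distrib, Finset.sum_add_distrib,
    Finset.sum_ite_eq' Finset.univ a, Finset.sum_ite_eq' Finset.univ b]
  simp only [Finset.mem_univ, if_true]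
  ring

theorem CMP_qf {V : Type} [Fintype V] (H : SimpleGraph V) (x : V → ℝ) :
    qf H x = ∑ v, x v * nb H x v := by
  unfold qf nb
  refine Finset.sum_congr rfl fun v _ => ?_
  rw [Finset.mul_sum]
  refine Finset.sum_congr rfl fun w _ => ?_
  ring

/-! ### the graphs -/

theorem CMP_TU_ss (r n : ℕ) (p q : Fin n) :
    (TUn r n).Adj (some p) (some q) ↔ p.val % r ≠ q.val % r := by
  unfold TUn
  rw [SimpleGraph.fromRel_adj]
  simp only
  constructor
  · rintro ⟨-, h | h⟩
    · exact h
    · exact h.symm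
  · intro h
    refine ⟨?_, Or.inl h⟩
    intro he
    rw [Option.some.injEq] at he
    exact h (by rw [he])

theorem CMP_TU_sn (r n : ℕ) (p : Fin n) : (TUn r n).Adj (some p) none ↔ p.val < r := by
  unfold TUn
  rw [SimpleGraph.fromRel_adj]
  simp

theorem CMP_TU_nn (r n : ℕ) : ¬ (TUn r n).Adj none none := by
  unfold TUn
  rw [SimpleGraph.fromRel_adj]
  simp

theorem CMP_TUM (r n i j : ℕ) (hi : i < n) (hj : j < n) (v w : Option (Fin n)) :
    (TUMn r n i j).Adj v w ↔ (TUn r n).Adj v w ∧
      ¬ (v = some ⟨i, hi⟩ ∧ w = some ⟨j, hj⟩) ∧ ¬ (v = some ⟨j, hj⟩ ∧ w = some ⟨i, hi⟩) := by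
  unfold TUn TUMn
  rw [SimpleGraph.fromRel_adj, SimpleGraph.fromRel_adj]
  rcases v with _ | p <;> rcases w with _ | q
  · simp
  · simp
  · simp
  · simp only [Option.some.injEq, Fin.ext_iff, ne_eq]
    tauto

open Classical in
theorem CMP_adj (r n i j : ℕ) (hi : i < n) (hj : j < n) (hir : i < r) (hjr : j < r)
    (hij : i ≠ j) (v w : Option (Fin n)) :
    adj (TUn r n) v w = adj (TUMn r n i j) v w +
      (if v = some ⟨i, hi⟩ then (if w = some ⟨j, hj⟩ then 1 else 0) else 0) +
      (if v = some ⟨j, hj⟩ then (if w = some ⟨i, hi⟩ then 1 else 0) else 0) := by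
  have hne : (some (⟨i, hi⟩ : Fin n)) ≠ some ⟨j, hj⟩ := by
    intro h
    rw [Option.some.injEq, Fin.ext_iff] at h
    exact hij h
  have h1 : (TUn r n).Adj (some ⟨i, hi⟩) (some ⟨j, hj⟩) := by
    rw [CMP_TU_ss]
    simp only
    rw [Nat.mod_eq_of_lt hir, Nat.mod_eq_of_lt hjr]
    exact hij
  unfold adj
  by_cases hA : v = some ⟨i, hi⟩ ∧ w = some ⟨j, hj⟩
  · obtain ⟨rfl, rfl⟩ := hA
    have h2 : ¬ (TUMn r n i j).Adj (some ⟨i, hi⟩) (some ⟨j, hj⟩) := by
      rw [CMP_TUM r n i j hi hj]
      tauto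
    rw [if_pos h1, if_neg h2, if_pos rfl, if_pos rfl, if_neg hne]
    norm_num
  · by_cases hB : v = some ⟨j, hj⟩ ∧ w = some ⟨i, hi⟩
    · obtain ⟨rfl, rfl⟩ := hB
      have h2 : ¬ (TUMn r n i j).Adj (some ⟨j, hj⟩) (some ⟨i, hi⟩) := by
        rw [CMP_TUM r n i j hi hj]
        tauto
      rw [if_pos h1.symm, if_neg h2, if_neg hne.symm, if_pos rfl, if_pos rfl]
      norm_num
    · have h3 : (if v = some (⟨i, hi⟩ : Fin n) then (if w = some (⟨j, hj⟩ : Fin n) then
          (1 : ℝ) else 0) else 0) = 0 := by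
        split_ifs with ha hb
        · exact absurd ⟨ha, hb⟩ hA
        · rfl
        · rfl
      have h4 : (if v = some (⟨j, hj⟩ : Fin n) then (if w = some (⟨i, hi⟩ : Fin n) then
          (1 : ℝ) else 0) else 0) = 0 := by
        split_ifs with ha hb
        · exact absurd ⟨ha, hb⟩ hB
        · rfl
        · rfl
      rw [h3, h4, add_zero, add_zero]
      by_cases hC : (TUn r n).Adj v w
      · rw [if_pos hC, if_pos ((CMP_TUM r n i j hi hj v w).2 ⟨hC, hA, hB⟩)]
      · rw [if_neg hC, if_neg fun h => hC ((CMP_TUM r n i j hi hj v w).1 h).1]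

open Classical in
theorem CMP_nb (r n i j : ℕ) (hi : i < n) (hj : j < n) (hir : i < r) (hjr : j < r)
    (hij : i ≠ j) (x : Option (Fin n) → ℝ) (v : Option (Fin n)) :
    nb (TUn r n) x v = nb (TUMn r n i j) x v +
      (if v = some ⟨i, hi⟩ then x (some ⟨j, hj⟩) else 0) +
      (if v = some ⟨j, hj⟩ then x (some ⟨i, hi⟩) else 0) := by
  unfold nb
  rw [Finset.sum_congr rfl fun w _ => by rw [CMP_adj r n i j hi hj hir hjr hij v w]]
  simp only [add_mul, Finset.sum_add_distrib]
  congr 1
  · congr 1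
    by_cases hv : v = some ⟨i, hi⟩
    · simp only [if_pos hv, ite_mul, one_mul, zero_mul, Finset.sum_ite_eq', Finset.mem_univ,
        if_true]
    · simp only [if_neg hv, zero_mul, Finset.sum_const_zero]
  · by_cases hv : v = some ⟨j, hj⟩
    · simp only [if_pos hv, ite_mul, one_mul, zero_mul, Finset.sum_ite_eq', Finset.mem_univ,
        if_true]
    · simp only [if_neg hv, zero_mul, Finset.sum_const_zero]

theorem CMP_qfT (r n i j : ℕ) (hi : i < n) (hj : j < n) (hir : i < r) (hjr : j < r)
    (hij : i ≠ j) (x : Option (Fin n) → ℝ) :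
    qf (TUn r n) x = qf (TUMn r n i j) x + 2 * (x (some ⟨i, hi⟩) * x (some ⟨j, hj⟩)) := by
  classical
  rw [CMP_qf, CMP_qf]
  have h : ∀ v, x v * nb (TUn r n) x v = x v * nb (TUMn r n i j) x v +
      (if v = some ⟨i, hi⟩ then x v * x (some ⟨j, hj⟩) else 0) +
      (if v = some ⟨j, hj⟩ then x v * x (some ⟨i, hi⟩) else 0) := by
    intro v
    rw [CMP_nb r n i j hi hj hir hjr hij x v, mul_add, mul_add, mul_ite, mul_ite, mul_zero]
  rw [Finset.sum_congr rfl fun v _ => h v, Finset.sum_add_distrib, Finset.sum_add_distrib,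
    Finset.sum_ite_eq', Finset.sum_ite_eq']
  simp only [Finset.mem_univ, if_true]
  ring

/-! ### row sums of `TUn` -/

/-- weight of the part `t` -/
noncomputable def CMP_X (r n : ℕ) (x : Option (Fin n) → ℝ) (t : ℕ) : ℝ :=
  ∑ q : Fin n, if q.val % r = t then x (some q) else 0

/-- size of the part `t` -/
noncomputable def CMP_N (r n t : ℕ) : ℝ := ∑ q : Fin n, if q.val % r = t then (1 : ℝ) else 0

theorem CMP_row (r n : ℕ) (x : Option (Fin n) → ℝ) (p : Fin n) :
    nb (TUn r n) x (some p) = (∑ q : Fin n, x (some q)) - CMP_X r n x (p.val % r) +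
      if p.val < r then x none else 0 := by
  classical
  unfold nb
  rw [Fintype.sum_option]
  have h1 : adj (TUn r n) (some p) none * x none = if p.val < r then x none else 0 := by
    unfold adj
    by_cases h : p.val < r
    · rw [if_pos ((CMP_TU_sn r n p).2 h), if_pos h, one_mul]
    · rw [if_neg fun h' => h ((CMP_TU_sn r n p).1 h'), if_neg h, zero_mul]
  have h2 : ∀ q : Fin n, adj (TUn r n) (some p) (some q) * x (some q) =
      x (some q) - if q.val % r = p.val % r then x (some q) else 0 := by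
    intro q
    unfold adj
    by_cases h : q.val % r = p.val % r
    · rw [if_neg fun h' => (CMP_TU_ss r n p q).1 h' h.symm, if_pos h]
      ring
    · rw [if_pos ((CMP_TU_ss r n p q).2 fun h' => h h'.symm), if_neg h]
      ring
  rw [h1, Finset.sum_congr rfl fun q _ => h2 q, Finset.sum_sub_distrib]
  unfold CMP_X
  ring

theorem CMP_rown (r n : ℕ) (x : Option (Fin n) → ℝ) :
    nb (TUn r n) x none = ∑ q : Fin n, if q.val < r then x (some q) else 0 := by
  classical
  unfold nb
  rw [Fintype.sum_option]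
  have h1 : adj (TUn r n) none none = 0 := by
    unfold adj
    rw [if_neg (CMP_TU_nn r n)]
  rw [h1, zero_mul, zero_add]
  refine Finset.sum_congr rfl fun q _ => ?_
  unfold adj
  by_cases h : q.val < r
  · rw [if_pos ((CMP_TU_sn r n q).2 h).symm, if_pos h, one_mul]
  · rw [if_neg fun h' => h ((CMP_TU_sn r n q).1 h'.symm), if_neg h, zero_mul]

theorem CMP_Nval (r n t : ℕ) (hr : 0 < r) (ht : t < r) :
    CMP_N r n t = ((n / r : ℕ) : ℝ) + if t < n % r then 1 else 0 := by
  unfold CMP_N
  rw [Fin.sum_univ_eq_sum_range (fun q => if q % r = t then (1 : ℝ) else 0) n,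
    Finset.sum_boole, ← Nat.count_eq_card_filter_range]
  have h1 : Nat.count (fun q => q % r = t) n = Nat.count (· ≡ t [MOD r]) n := by
    congr 1
    funext q
    show (q % r = t) = (q % r = t % r)
    rw [Nat.mod_eq_of_lt ht]
  have h2 := Nat.count_modEq_card n hr t
  rw [h1, h2, Nat.mod_eq_of_lt ht]
  push_cast
  rfl

/-- the new test vector -/
noncomputable def CMP_y {V : Type} (a b : V) (x : V → ℝ) (D : ℝ) (v : V) : ℝ :=
  open Classical in x v + ((if v = a then D else 0) - if v = b then D else 0)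

theorem CMP_y_a {V : Type} {a b : V} (hab : a ≠ b) (x : V → ℝ) (D : ℝ) :
    CMP_y a b x D a = x a + D := by
  simp [CMP_y, hab]

theorem CMP_y_b {V : Type} {a b : V} (hab : a ≠ b) (x : V → ℝ) (D : ℝ) :
    CMP_y a b x D b = x b - D := by
  simp [CMP_y, hab.symm]
  ring

theorem CMP_y_c {V : Type} {a b c : V} (ha : c ≠ a) (hb : c ≠ b) (x : V → ℝ) (D : ℝ) :
    CMP_y a b x D c = x c := by
  simp [CMP_y, ha, hb]

theorem CMP_sq' {V : Type} [Fintype V] (a b : V) (hab : a ≠ b) (x : V → ℝ) (D : ℝ) :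
    ∑ v, CMP_y a b x D v ^ 2 = ∑ v, x v ^ 2 + 2 * D * (x a - x b) + 2 * D ^ 2 := by
  rw [← CMP_sq a b hab x D]
  rfl

theorem prfCMP : P_statement → EDG_statement → TUMPn_statement → CMP_statement := by
  classical
  intro hP _ _ r hr
  refine ⟨10 * r, fun n hn i j k hi hj hk hij hkj hkn hni => ?_⟩
  have hr0 : 0 < r := by omega
  have hrn : r ≤ n := by omega
  have hin : i < n := by omega
  have hjn : j < n := by omega
  have hkn' : k < n := by omega
  have hki : k ≠ i := by omega
  obtain ⟨hl0, -, x, hx0, hx1, hxe⟩ := hP (Option (Fin n)) (TUMn r n i j)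
  obtain ⟨-, hRay, -⟩ := hP (Option (Fin n)) (TUMn r n k j)
  set l := lam (TUMn r n i j) with hl
  have hnb : ∀ v, nb (TUMn r n i j) x v = l * x v := hxe
  have hnbT : ∀ v, nb (TUn r n) x v = l * x v +
      (if v = some ⟨i, hin⟩ then x (some ⟨j, hjn⟩) else 0) +
      (if v = some ⟨j, hjn⟩ then x (some ⟨i, hin⟩) else 0) := by
    intro v
    rw [CMP_nb r n i j hin hjn hi hj hij x v, hnb]
  obtain ⟨T, hT⟩ : ∃ T, T = ∑ q : Fin n, x (some q) := ⟨_, rfl⟩
  obtain ⟨xu, hxu⟩ : ∃ xu, xu = x none := ⟨_, rfl⟩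
  obtain ⟨xi, hxi⟩ : ∃ xi, xi = x (some ⟨i, hin⟩) := ⟨_, rfl⟩
  obtain ⟨xj, hxj⟩ : ∃ xj, xj = x (some ⟨j, hjn⟩) := ⟨_, rfl⟩
  obtain ⟨xk, hxk⟩ : ∃ xk, xk = x (some ⟨k, hkn'⟩) := ⟨_, rfl⟩
  have hxu0 : 0 ≤ xu := hxu ▸ hx0 _
  have hxi0 : 0 ≤ xi := hxi ▸ hx0 _
  have hxj0 : 0 ≤ xj := hxj ▸ hx0 _
  -- eigen-equations at the core
  have hE : ∀ p : Fin n, l * x (some p) = T - CMP_X r n x (p.val % r) +
      (if p.val < r then xu else 0) - (if p.val = i then xj else 0) -
      (if p.val = j then xi else 0) := by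
    intro p
    have h1 := hnbT (some p)
    rw [CMP_row, ← hT, ← hxu, ← hxi, ← hxj] at h1
    have h2 : (some p = some (⟨i, hin⟩ : Fin n)) ↔ p.val = i := by
      rw [Option.some.injEq, Fin.ext_iff]
    have h3 : (some p = some (⟨j, hjn⟩ : Fin n)) ↔ p.val = j := by
      rw [Option.some.injEq, Fin.ext_iff]
    simp only [h2, h3] at h1
    linarith
  have hX0 : ∀ t, 0 ≤ CMP_X r n x t := fun t =>
    Finset.sum_nonneg fun q _ => by split_ifs; exacts [hx0 _, le_rfl]
  have hXT : ∀ t, CMP_X r n x t ≤ T := by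
    intro t
    rw [hT]
    refine Finset.sum_le_sum fun q _ => ?_
    split_ifs
    exacts [le_rfl, hx0 _]
  -- single sums
  have hsing : ∀ (t : ℕ) (ht : t < n) (f : Fin n → ℝ),
      ∑ p : Fin n, (if p.val = t then f p else 0) = f ⟨t, ht⟩ := by
    intro t ht f
    have : ∀ p : Fin n, (if p.val = t then f p else 0) = if p = ⟨t, ht⟩ then f p else 0 := by
      intro p
      simp only [Fin.ext_iff]
    rw [Finset.sum_congr rfl fun p _ => this p, Finset.sum_ite_eq']
    simp
  -- class sums
  have hC : ∀ t, t < r → (l + CMP_N r n t) * CMP_X r n x t = CMP_N r n t * T + xu -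
      (if t = i then xj else 0) - (if t = j then xi else 0) := by
    intro t ht
    have htn : t < n := by omega
    have h1 : l * CMP_X r n x t = ∑ p : Fin n, if p.val % r = t then l * x (some p) else 0 := by
      unfold CMP_X
      rw [Finset.mul_sum]
      refine Finset.sum_congr rfl fun p _ => ?_
      rw [mul_ite, mul_zero]
    have h2 : ∀ p : Fin n, (if p.val % r = t then l * x (some p) else 0) =
        (if p.val % r = t then (1 : ℝ) else 0) * (T - CMP_X r n x t) +
        (if p.val = t then xu - (if t = i then xj else 0) - (if t = j then xi else 0) else 0) := by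
      intro p
      by_cases h : p.val % r = t
      · rw [if_pos h, if_pos h, hE p, h, one_mul]
        by_cases hpr : p.val < r
        · have hpt : p.val = t := by rw [← h, Nat.mod_eq_of_lt hpr]
          rw [if_pos hpr, if_pos hpt, hpt]
          ring
        · have hpt : p.val ≠ t := by omega
          have hpi : p.val ≠ i := by omega
          have hpj : p.val ≠ j := by omega
          rw [if_neg hpr, if_neg hpt, if_neg hpi, if_neg hpj]
          ring
      · have hpt : p.val ≠ t := by
          intro h'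
          apply h
          rw [h', Nat.mod_eq_of_lt ht]
        rw [if_neg h, if_neg h, if_neg hpt]
        ring
    rw [Finset.sum_congr rfl fun p _ => h2 p, Finset.sum_add_distrib, ← Finset.sum_mul,
      hsing t htn] at h1
    have h3 : ∑ p : Fin n, (if p.val % r = t then (1 : ℝ) else 0) = CMP_N r n t := rfl
    rw [h3] at h1
    linarith
  -- sizes
  obtain ⟨M, hM⟩ : ∃ M, M = n / r := ⟨_, rfl⟩
  have hM10 : 10 ≤ M := by
    rw [hM]
    exact (Nat.le_div_iff_mul_le hr0).2 hn
  have hMn : 3 * M ≤ n := by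
    have : M * r ≤ n := by rw [hM]; exact Nat.div_mul_le_self n r
    nlinarith
  have hNi : CMP_N r n i = M := by
    rw [CMP_Nval r n i hr0 hi, if_neg (by omega), add_zero, hM]
  have hNk : CMP_N r n k = M + 1 := by
    rw [CMP_Nval r n k hr0 hk, if_pos hkn, hM]
  have hNj : CMP_N r n j = M ∨ CMP_N r n j = (M : ℝ) + 1 := by
    rw [CMP_Nval r n j hr0 hj, hM]
    split_ifs
    · exact Or.inr rfl
    · left
      rw [add_zero]
  have hNle : ∀ t, t < r → CMP_N r n t ≤ M + 1 := by
    intro t ht
    rw [CMP_Nval r n t hr0 ht, hM]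
    split_ifs
    · exact le_rfl
    · linarith
  have hT0 : 0 ≤ T := by
    rw [hT]
    exact Finset.sum_nonneg fun q _ => hx0 _
  -- the new vertex
  have hu : l * xu = ∑ q : Fin n, if q.val < r then x (some q) else 0 := by
    have h1 := hnbT none
    rw [CMP_rown, if_neg (by simp), if_neg (by simp), add_zero, add_zero, ← hxu] at h1
    exact h1.symm
  have huT : l * xu ≤ T := by
    rw [hu, hT]
    refine Finset.sum_le_sum fun q _ => ?_
    split_ifs
    exacts [le_rfl, hx0 _]
  have hkE : l * xk = T - CMP_X r n x k + xu := by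
    have := hE ⟨k, hkn'⟩
    simp only [Nat.mod_eq_of_lt hk, if_pos hk, if_neg hki, if_neg hkj] at this
    rw [← hxk] at this
    linarith
  have hiE : l * xi = T - CMP_X r n x i + xu - xj := by
    have := hE ⟨i, hin⟩
    simp only [Nat.mod_eq_of_lt hi, if_pos hi, if_neg hij, if_true] at this
    rw [← hxi] at this
    linarith
  have hjE : l * xj = T - CMP_X r n x j + xu - xi := by
    have := hE ⟨j, hjn⟩
    simp only [Nat.mod_eq_of_lt hj, if_pos hj, if_neg hij.symm, if_true] at this
    rw [← hxj] at this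
    linarith
  have hTpos : 0 < T := by
    rcases hT0.eq_or_lt with h | h
    · exfalso
      have h1 : ∀ q : Fin n, x (some q) = 0 := by
        have h2 : ∑ q : Fin n, x (some q) = 0 := by rw [← hT, ← h]
        intro q
        exact (Finset.sum_eq_zero_iff_of_nonneg fun q _ => hx0 _).1 h2 q (Finset.mem_univ q)
      have h3 : CMP_X r n x k = 0 := le_antisymm (by rw [h]; exact hXT k) (hX0 k)
      have h4 : xk = 0 := by rw [hxk]; exact h1 _
      rw [h4, h3, ← h] at hkE
      have h5 : x none = 0 := by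
        rw [← hxu]
        linarith
      rw [Fintype.sum_option, h5] at hx1
      simp [h1] at hx1
    · exact h
  -- lower bound for `l`
  have hlT : ((n : ℝ) - M - 2) * T ≤ l * T := by
    have h1 : l * T = ∑ p : Fin n, l * x (some p) := by rw [hT, Finset.mul_sum]
    have h2 : ∑ p : Fin n, CMP_X r n x (p.val % r) ≤ ((M : ℝ) + 1) * T := by
      have h3 : ∑ p : Fin n, CMP_X r n x (p.val % r) =
          ∑ q : Fin n, CMP_N r n (q.val % r) * x (some q) := by
        unfold CMP_X CMP_N
        rw [Finset.sum_comm]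
        refine Finset.sum_congr rfl fun q _ => ?_
        rw [Finset.sum_mul]
        refine Finset.sum_congr rfl fun p _ => ?_
        by_cases h : q.val % r = p.val % r
        · rw [if_pos h, if_pos h.symm, one_mul]
        · rw [if_neg h, if_neg fun h' => h h'.symm, zero_mul]
      rw [h3, hT, Finset.mul_sum]
      exact Finset.sum_le_sum fun q _ =>
        mul_le_mul_of_nonneg_right (hNle _ (Nat.mod_lt _ hr0)) (hx0 _)
    have h4 : xi + xj ≤ T := by
      have h5 : xi + xj = ∑ p : Fin n, ((if p.val = i then x (some p) else 0) +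
          (if p.val = j then x (some p) else 0)) := by
        rw [Finset.sum_add_distrib, hsing i hin, hsing j hjn, hxi, hxj]
      rw [h5, hT]
      refine Finset.sum_le_sum fun p _ => ?_
      by_cases ha : p.val = i
      · rw [if_pos ha, if_neg (by omega), add_zero]
      · rw [if_neg ha, zero_add]
        split_ifs
        exacts [le_rfl, hx0 _]
    have h6 : ∑ p : Fin n, l * x (some p) ≥ ∑ p : Fin n, (T - CMP_X r n x (p.val % r) -
        (if p.val = i then xj else 0) - (if p.val = j then xi else 0)) := by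
      refine Finset.sum_le_sum fun p _ => ?_
      rw [hE p]
      split_ifs <;> linarith
    rw [Finset.sum_sub_distrib, Finset.sum_sub_distrib, Finset.sum_sub_distrib,
      hsing i hin, hsing j hjn, Finset.sum_const, Finset.card_univ, Fintype.card_fin,
      nsmul_eq_mul] at h6
    nlinarith
  have hlM : (M : ℝ) + 1 ≤ l := by
    have h1 := le_of_mul_le_mul_right hlT hTpos
    have h2 : (3 : ℝ) * M ≤ n := by exact_mod_cast hMn
    have h3 : (10 : ℝ) ≤ M := by exact_mod_cast hM10
    linarith
  have hM10' : (10 : ℝ) ≤ M := by exact_mod_cast hM10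
  have hxuT : xu ≤ T := by nlinarith
  have hCk := hC k hk
  rw [if_neg hki, if_neg hkj, sub_zero, sub_zero] at hCk
  have hCi := hC i hi
  rw [if_pos rfl, if_neg hij, sub_zero] at hCi
  have hCj := hC j hj
  rw [if_neg hij.symm, if_pos rfl, sub_zero] at hCj
  rw [hNi] at hCi
  rw [hNk] at hCk
  obtain ⟨hD0, hD1⟩ := CMP_real (nj := CMP_N r n j) hkE hiE hjE hCk hCi hCj rfl hNj hM10' hlM
    hTpos hxu0 hxuT (hXT k) (hX0 i) (hX0 j) hxi0 hxj0
  -- the new test vector
  obtain ⟨D, hD⟩ : ∃ D, D = xk - xi := ⟨_, rfl⟩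
  rw [← hD] at hD0 hD1
  have hne : (some (⟨i, hin⟩ : Fin n)) ≠ some ⟨k, hkn'⟩ := by
    intro h
    rw [Option.some.injEq, Fin.ext_iff] at h
    exact hki h.symm
  have hneji : (some (⟨j, hjn⟩ : Fin n)) ≠ some ⟨i, hin⟩ := by
    intro h
    rw [Option.some.injEq, Fin.ext_iff] at h
    exact hij h.symm
  have hnejk : (some (⟨j, hjn⟩ : Fin n)) ≠ some ⟨k, hkn'⟩ := by
    intro h
    rw [Option.some.injEq, Fin.ext_iff] at h
    exact hkj h.symm
  have hAik : (TUn r n).Adj (some ⟨i, hin⟩) (some ⟨k, hkn'⟩) := by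
    rw [CMP_TU_ss]
    simp only
    rw [Nat.mod_eq_of_lt hi, Nat.mod_eq_of_lt hk]
    exact hki.symm
  have hq1 : qf (TUMn r n i j) x = l := by
    rw [CMP_qf]
    have : ∀ v, x v * nb (TUMn r n i j) x v = l * x v ^ 2 := by
      intro v
      rw [hnb]
      ring
    rw [Finset.sum_congr rfl fun v _ => this v, ← Finset.mul_sum, hx1, mul_one]
  have hq2 := CMP_qfT r n i j hin hjn hi hj hij x
  rw [hq1, ← hxi, ← hxj] at hq2
  have hq3 : qf (TUn r n) (CMP_y (some ⟨i, hin⟩) (some ⟨k, hkn'⟩) x D) = qf (TUn r n) x +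
      2 * D * (nb (TUn r n) x (some ⟨i, hin⟩) - nb (TUn r n) x (some ⟨k, hkn'⟩)) - 2 * D ^ 2 :=
    CMP_shift (TUn r n) (some ⟨i, hin⟩) (some ⟨k, hkn'⟩) hAik x D
  have hq4 := CMP_qfT r n k j hkn' hjn hk hj hkj (CMP_y (some ⟨i, hin⟩) (some ⟨k, hkn'⟩) x D)
  have hq5 : ∑ v, CMP_y (some ⟨i, hin⟩) (some ⟨k, hkn'⟩) x D v ^ 2 = ∑ v, x v ^ 2 +
      2 * D * (x (some ⟨i, hin⟩) - x (some ⟨k, hkn'⟩)) + 2 * D ^ 2 :=
    CMP_sq' (some ⟨i, hin⟩) (some ⟨k, hkn'⟩) hne x D
  have hq6 := hRay (CMP_y (some ⟨i, hin⟩) (some ⟨k, hkn'⟩) x D)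
  rw [hq5, hx1, ← hxi, ← hxk] at hq6
  rw [hq3, hq2, hnbT, hnbT, if_pos rfl, if_neg hneji.symm, if_neg hne.symm,
    if_neg hnejk.symm, CMP_y_b hne, CMP_y_c hneji hnejk, ← hxi, ← hxj, ← hxk] at hq4
  have hkk : xk - D = xi := by rw [hD]; ring
  rw [hkk] at hq4
  have hik : xi - xk = -D := by rw [hD]; ring
  have hsq1 : 1 + 2 * D * (xi - xk) + 2 * D ^ 2 = 1 := by rw [hik]; ring
  rw [hsq1, mul_one] at hq6
  have hxkD : xk = xi + D := by rw [hD]; ring
  rw [hxkD] at hq4
  have hpos : 0 < 2 * D * (xj - (l + 1) * D) := by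
    have : 0 < xj - (l + 1) * D := by linarith
    positivity
  have hfin : qf (TUMn r n k j) (CMP_y (some ⟨i, hin⟩) (some ⟨k, hkn'⟩) x D)
      = l + 2 * D * (xj - (l + 1) * D) := by
    linear_combination -hq4
  linarith

end MP0c3a8f
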