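import Pool.Agent.Work.MP_0c3a8f_co.Stmts

/-!
# MP_0c3a8f_co, extension to all Turán graphs: definitions
-/

open Finset

namespace MP0c3a8f

/-- `G` arises from the complete `r`-partite graph with parts of the sizes `σ t` (the vertices with
`f v = some t` form the part `t`) by deleting `a` edges and adding `b` edges, each of which
meets the set of the new vertices (`f v = none`) -/
structure IsModS {V : Type} {r : ℕ} (σ : Fin r → ℕ) (a b : ℕ) (G : SimpleGraph V)
    (f : V → Option (Fin r)) : Prop where
  size : ∀ t, {v | f v = some t}.ncard = σ t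
  indep : Indep G f
  miss : (missSet G f).ncard = a
  outer : (outSet G f).ncard = b

/-- `∑ (σ t - n/r)²` where `n = ∑ σ t` -/
noncomputable def dev {r : ℕ} (σ : Fin r → ℕ) : ℝ :=
  ∑ t, ((σ t : ℝ) - (∑ s, (σ s : ℝ)) / r) ^ 2

/-- `2(a+b) + (1 - 2/r) ∑ (σ t - n/r)²` -/
noncomputable def Phi {r : ℕ} (σ : Fin r → ℕ) (a b : ℕ) : ℝ :=
  2 * ((a : ℝ) + b) + (1 - 2 / (r : ℝ)) * dev σ

/-- `m = e(K_r(σ)) - a + b` -/
def Sz {r : ℕ} (σ : Fin r → ℕ) (a b m : ℕ) : Prop :=
  2 * m + 2 * a + ∑ t, σ t ^ 2 = (∑ t, σ t) ^ 2 + 2 * b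

/-- `G` has maximal spectral radius in `N_r(m, F)` -/
def IsMaximiser {V W : Type} [Fintype V] (r m : ℕ) (F : SimpleGraph W) (G : SimpleGraph V) :
    Prop :=
  InN r m F G ∧ ∀ (U : Type) [Fintype U] (H : SimpleGraph U), InN r m F H → lam H ≤ lam G

/-- `H` is the unique graph with maximal spectral radius in `N_r(m, F)` -/
def Unique {U W : Type} [Fintype U] (r m : ℕ) (F : SimpleGraph W) (H : SimpleGraph U) : Prop :=
  IsMaximiser r m F H ∧
    ∀ (V : Type) [Fintype V] (G : SimpleGraph V), IsMaximiser r m F G → Nonempty (G ≃g H)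

/-- the Turán graph `T_r(n)` (the vertices `i, j < n` are adjacent if `i % r ≠ j % r`) and one new
vertex `none`, joined to the vertices `0, ..., r - 1` (one of each part) -/
def TUn (r n : ℕ) : SimpleGraph (Option (Fin n)) :=
  SimpleGraph.fromRel fun p q =>
    match p, q with
    | some p, some q => p.val % r ≠ q.val % r
    | none, some q => q.val < r
    | some p, none => p.val < r
    | none, none => False

/-- the same graph without the edge between the vertices `i` and `j` (used for `i, j < r`) -/
def TUMn (r n i j : ℕ) : SimpleGraph (Option (Fin n)) :=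
  SimpleGraph.fromRel fun p q =>
    match p, q with
    | some p, some q => p.val % r ≠ q.val % r ∧ ¬ (p.val = i ∧ q.val = j) ∧
        ¬ (p.val = j ∧ q.val = i)
    | none, some q => q.val < r
    | some p, none => p.val < r
    | none, none => False

/-- the sizes of the parts of `T_r(n)` -/
def tz (r n : ℕ) (t : Fin r) : ℕ := n / r + if t.val < n % r then 1 else 0

end MP0c3a8f
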